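import Pool.Agent.H712R2.MA.H1
import Pool.Agent.H712R2.MA.H2
import Pool.Agent.H712R2.MA.H3
import Pool.Agent.H712R2.MA.H4
import Pool.Agent.H712R2.MA.H5
import Pool.Agent.H712R2.MA.A1
import Pool.Agent.H712R2.MA.A2
import Pool.Agent.H712R2.MA.A3
import Pool.Agent.H712R2.MA.A4
import Pool.Agent.H712R2.MA.P
import Pool.Agent.H712R2.MA.C0
import Pool.Agent.H712R2.MA.C1
import Pool.Agent.H712R2.MA.C2
import Pool.Agent.H712R2.MA.C3
import Pool.Agent.H712R2.MA.C4
import Pool.Agent.H712R2.MA.C5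
import Pool.Agent.H712R2.MA.C6
import Pool.Agent.H712R2.MA.E
import Pool.Agent.H712R2.MA.F
import Pool.Agent.H712R2.MA.R1
import Pool.Agent.H712R2.MA.R2
import Pool.Agent.H712R2.MA.S
import Pool.Agent.H712R2.MA.Z
import Pool.Agent.H712R2.MA.G

/-!
The volume product bound for symmetric convex bodies in coordinates, from the starting files
`Pool.Agent.H712R2.MA`.
-/

set_option autoImplicit false

open MeasureTheory
open scoped ENNReal

namespace Pool.Agent.H912R3

open H712MA in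
theorem sC6 : S_C6 := C6 (C2 P (C1 P C0 A4) A1) C3 (C4 C0 A2 A4) C5

open H712MA in
theorem sZ : S_Z :=
  Z (H2 H1) (H5 H1 (H2 H1) H3) sC6 (R2 (R1 (H2 H1) H3 (H4 H1 (H2 H1) H3) A3) (H2 H1))
    (E (H2 H1) H3 (H5 H1 (H2 H1) H3) F) S

/-- Mahler's inequality in coordinates. -/
theorem mahler {n : ℕ} {K : Set (Fin n → ℝ)} (h : H712MA.GB.SBody K) :
    ENNReal.ofReal ((4 : ℝ) ^ n / n.factorial) ≤ volume K * volume (H712MA.GB.plr K) :=
  H712MA.GB.coord sZ h

end Pool.Agent.H912R3
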